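import Pool.Agent.L0h52.BZ.Stm

/-!
# Project BZ, module UNI: the Mellin transform for `Re s > 1` (helper88)
-/

set_option autoImplicit false

open Filter Topology Asymptotics Set

namespace Pool.Agent.L0h88.BZ

open Pool.Agent.L0h52.BZ

lemma diff_gam {s : ℂ} (h : s.im ≠ 0) : DifferentiableAt ℂ Complex.Gamma s := by
  apply Complex.differentiableAt_Gamma
  intro m hm
  apply h
  rw [hm]
  simp

theorem t_UNI : S_UNI := by
  intro hB hM hG hS a ω θ ha hω hθ Z hZ
  obtain ⟨hc, h0, c, hc0, htop⟩ := hB a ω θ ha hω hθ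
  set F : ℂ → ℂ := mellin (hr a ω θ) with hF
  set G : ℂ → ℂ := fun s => Complex.exp (-((θ : ℂ) * Complex.I * s)) *
      (Complex.Gamma s * Z s - Complex.Gamma (s - 2) / (ω : ℂ)) with hGd
  have hFd : ∀ s : ℂ, 1 < s.re → DifferentiableAt ℂ F s := by
    intro s hs
    exact mellin_differentiableAt_of_isBigO_rpow_exp hc0
      (hc.locallyIntegrableOn measurableSet_Ioi) htop h0 hs
  have hGdd : ∀ s : ℂ, 1 < s.re → s.im ≠ 0 → DifferentiableAt ℂ G s := by
    intro s hs hi
    have h2 : s ≠ 2 := by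
      intro h
      apply hi
      rw [h]
      simp
    have h3 : DifferentiableAt ℂ (fun s : ℂ => Complex.Gamma (s - 2)) s := by
      have h4 : DifferentiableAt ℂ Complex.Gamma (s - 2) := by
        apply diff_gam
        simpa using hi
      exact h4.comp s (differentiableAt_id.sub_const 2)
    have h5 : DifferentiableAt ℂ (fun s : ℂ => Complex.exp (-((θ : ℂ) * Complex.I * s))) s := by
      fun_prop
    exact h5.mul (((diff_gam hi).mul (hZ.diff s hs h2)).sub (h3.div_const _))
  have hFG : ∀ s : ℂ, 2 < s.re → F s = G s := by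
    intro s hs
    rw [hF, hM hG hS a ω θ ha hω hθ s hs, (hZ.sum s hs).tsum_eq]
  have key : ∀ U : Set ℂ, IsOpen U → Convex ℝ U → (∀ s ∈ U, 1 < s.re ∧ s.im ≠ 0) →
      (∃ z ∈ U, 2 < z.re) → ∀ s ∈ U, F s = G s := by
    intro U hUo hUc hU ⟨z, hz, hz2⟩
    have h1 : AnalyticOnNhd ℂ F U :=
      DifferentiableOn.analyticOnNhd (fun s hs => (hFd s (hU s hs).1).differentiableWithinAt) hUo
    have h2 : AnalyticOnNhd ℂ G U :=
      DifferentiableOn.analyticOnNhd
        (fun s hs => (hGdd s (hU s hs).1 (hU s hs).2).differentiableWithinAt) hUo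
    have h3 : F =ᶠ[𝓝 z] G := by
      have h4 : IsOpen {s : ℂ | 2 < s.re} := isOpen_lt continuous_const Complex.continuous_re
      filter_upwards [h4.mem_nhds hz2] with s hs using hFG s hs
    exact h1.eqOn_of_preconnected_of_eventuallyEq h2 hUc.isPreconnected hz h3
  intro s hs hi
  rcases lt_or_gt_of_ne hi with hneg | hpos
  · refine key ({s : ℂ | 1 < s.re} ∩ {s : ℂ | s.im < 0})
      ((isOpen_lt continuous_const Complex.continuous_re).inter
        (isOpen_lt Complex.continuous_im continuous_const))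
      ((convex_halfSpace_re_gt 1).inter (convex_halfSpace_im_lt 0))
      (fun s hs => ⟨hs.1, ne_of_lt hs.2⟩) ⟨⟨3, -1⟩, ⟨?_, ?_⟩, ?_⟩ s ⟨hs, hneg⟩
    · show (1 : ℝ) < 3
      norm_num
    · show (-1 : ℝ) < 0
      norm_num
    · show (2 : ℝ) < 3
      norm_num
  · refine key ({s : ℂ | 1 < s.re} ∩ {s : ℂ | 0 < s.im})
      ((isOpen_lt continuous_const Complex.continuous_re).inter
        (isOpen_lt continuous_const Complex.continuous_im))
      ((convex_halfSpace_re_gt 1).inter (convex_halfSpace_im_gt 0))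
      (fun s hs => ⟨hs.1, ne_of_gt hs.2⟩) ⟨⟨3, 1⟩, ⟨?_, ?_⟩, ?_⟩ s ⟨hs, hpos⟩
    · show (1 : ℝ) < 3
      norm_num
    · show (0 : ℝ) < 1
      norm_num
    · show (2 : ℝ) < 3
      norm_num

end Pool.Agent.L0h88.BZ
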